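import Pool.Agent.P8H10.SF.Stm

/-!
# Project SF, package TWO: singular 2 x 2 matrices with entries in a space of dimension two
-/

set_option autoImplicit false

open Matrix Polynomial

namespace Pool.Agent.P8H26.SF

open Pool.Agent.P8H10.SF

section K

variable {K : Type} [Field K]

/-- pencils of singular matrices, one coefficient different from zero -/
lemma core {a b c d p q r s : K} (ha : a ≠ 0) (h1 : a * d - b * c = 0) (h2 : p * s - q * r = 0)
    (h3 : a * s + d * p - b * r - c * q = 0) :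
    (∃ w₀ w₁ : K, (w₀ ≠ 0 ∨ w₁ ≠ 0) ∧ w₀ * a + w₁ * c = 0 ∧ w₀ * b + w₁ * d = 0 ∧
      w₀ * p + w₁ * r = 0 ∧ w₀ * q + w₁ * s = 0) ∨
    ∃ v₀ v₁ : K, (v₀ ≠ 0 ∨ v₁ ≠ 0) ∧ v₀ * a + v₁ * b = 0 ∧ v₀ * c + v₁ * d = 0 ∧
      v₀ * p + v₁ * q = 0 ∧ v₀ * r + v₁ * s = 0 := by
  have hp1 : -b * (-c * p + a * r) + a * (-c * q + a * s) = 0 := by
    linear_combination a * h3 - p * h1
  have hp2 : -c * (-b * p + a * q) + a * (-b * r + a * s) = 0 := by
    linear_combination a * h3 - p * h1
  have hm : (-b * p + a * q) * (-c * p + a * r) = 0 := by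
    linear_combination p * hp1 - a ^ 2 * h2
  rcases mul_eq_zero.1 hm with h | h
  · right
    refine ⟨-b, a, Or.inr ha, by ring, by linear_combination h1, h, ?_⟩
    rw [h, mul_zero, zero_add] at hp2
    exact (mul_eq_zero.1 hp2).resolve_left ha
  · left
    refine ⟨-c, a, Or.inr ha, by ring, by linear_combination h1, h, ?_⟩
    rw [h, mul_zero, zero_add] at hp1
    exact (mul_eq_zero.1 hp1).resolve_left ha

/-- singular matrices have a left kernel -/
lemma sing {a b c d : K} (h1 : a * d - b * c = 0) :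
    ∃ w₀ w₁ : K, (w₀ ≠ 0 ∨ w₁ ≠ 0) ∧ w₀ * a + w₁ * c = 0 ∧ w₀ * b + w₁ * d = 0 := by
  by_cases ha : a = 0
  · by_cases hc : c = 0
    · by_cases hb : b = 0
      · exact ⟨1, 0, Or.inl one_ne_zero, by rw [ha]; ring, by rw [hb]; ring⟩
      · exact ⟨-d, b, Or.inr hb, by rw [ha, hc]; ring, by ring⟩
    · exact ⟨-c, a, Or.inl (neg_ne_zero.2 hc), by ring, by linear_combination h1⟩
  · exact ⟨-c, a, Or.inr ha, by ring, by linear_combination h1⟩

/-- pencils of singular matrices -/
lemma pencil {a b c d p q r s : K} (h1 : a * d - b * c = 0) (h2 : p * s - q * r = 0)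
    (h3 : a * s + d * p - b * r - c * q = 0) :
    (∃ w₀ w₁ : K, (w₀ ≠ 0 ∨ w₁ ≠ 0) ∧ w₀ * a + w₁ * c = 0 ∧ w₀ * b + w₁ * d = 0 ∧
      w₀ * p + w₁ * r = 0 ∧ w₀ * q + w₁ * s = 0) ∨
    ∃ v₀ v₁ : K, (v₀ ≠ 0 ∨ v₁ ≠ 0) ∧ v₀ * a + v₁ * b = 0 ∧ v₀ * c + v₁ * d = 0 ∧
      v₀ * p + v₁ * q = 0 ∧ v₀ * r + v₁ * s = 0 := by
  by_cases ha : a = 0
  · by_cases hb : b = 0
    · by_cases hc : c = 0
      · by_cases hd : d = 0
        · obtain ⟨w₀, w₁, hw, e1, e2⟩ := sing h2
          exact Or.inl ⟨w₀, w₁, hw, by rw [ha, hc]; ring, by rw [hb, hd]; ring, e1, e2⟩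
        · rcases core (a := d) (b := c) (c := b) (d := a) (p := s) (q := r) (r := q) (s := p) hd
            (by linear_combination h1) (by linear_combination h2) (by linear_combination h3) with
            ⟨w₀, w₁, hw, e1, e2, e3, e4⟩ | ⟨v₀, v₁, hv, e1, e2, e3, e4⟩
          · exact Or.inl ⟨w₁, w₀, hw.symm, by linear_combination e2, by linear_combination e1,
              by linear_combination e4, by linear_combination e3⟩
          · exact Or.inr ⟨v₁, v₀, hv.symm, by linear_combination e2, by linear_combination e1,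
              by linear_combination e4, by linear_combination e3⟩
      · rcases core (a := c) (b := d) (c := a) (d := b) (p := r) (q := s) (r := p) (s := q) hc
          (by linear_combination -h1) (by linear_combination -h2) (by linear_combination -h3) with
          ⟨w₀, w₁, hw, e1, e2, e3, e4⟩ | ⟨v₀, v₁, hv, e1, e2, e3, e4⟩
        · exact Or.inl ⟨w₁, w₀, hw.symm, by linear_combination e1, by linear_combination e2,
            by linear_combination e3, by linear_combination e4⟩
        · exact Or.inr ⟨v₀, v₁, hv, by linear_combination e2, by linear_combination e1,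
            by linear_combination e4, by linear_combination e3⟩
    · rcases core (a := b) (b := a) (c := d) (d := c) (p := q) (q := p) (r := s) (s := r) hb
        (by linear_combination -h1) (by linear_combination -h2) (by linear_combination -h3) with
        ⟨w₀, w₁, hw, e1, e2, e3, e4⟩ | ⟨v₀, v₁, hv, e1, e2, e3, e4⟩
      · exact Or.inl ⟨w₀, w₁, hw, by linear_combination e2, by linear_combination e1,
          by linear_combination e4, by linear_combination e3⟩
      · exact Or.inr ⟨v₁, v₀, hv.symm, by linear_combination e1, by linear_combination e2,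
          by linear_combination e3, by linear_combination e4⟩
  · exact core ha h1 h2 h3

/-- elements of an extension of an algebraically closed field which satisfy a quadratic equation -/
lemma quad {Ω : Type} [Field Ω] [Algebra K Ω] [IsAlgClosed K] (z : Ω)
    (hz : z ∉ (algebraMap K Ω).range) {a b c : K}
    (h : algebraMap K Ω a * z ^ 2 + algebraMap K Ω b * z + algebraMap K Ω c = 0) :
    a = 0 ∧ b = 0 ∧ c = 0 := by
  by_contra hne
  obtain ⟨P, hP⟩ : ∃ P : K[X], P = C a * X ^ 2 + C b * X + C c := ⟨_, rfl⟩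
  have hP0 : P ≠ 0 := by
    intro h0
    apply hne
    have e2 := congrArg (fun Q : K[X] => Q.coeff 2) h0
    have e1 := congrArg (fun Q : K[X] => Q.coeff 1) h0
    have e0 := congrArg (fun Q : K[X] => Q.coeff 0) h0
    rw [hP] at e2 e1 e0
    simp [coeff_X, coeff_C] at e2 e1 e0
    exact ⟨e2, e1, e0⟩
  have hroot : aeval z P = 0 := by
    rw [hP]
    simp only [map_add, map_mul, map_pow, aeval_C, aeval_X]
    exact h
  have halg : IsAlgebraic K z := ⟨P, hP0, hroot⟩
  have hirr := minpoly.irreducible halg.isIntegral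
  have hdeg := IsAlgClosed.degree_eq_one_of_irreducible K hirr
  exact hz (minpoly.mem_range_of_degree_eq_one K z hdeg)

end K

section dep

variable {K Ω : Type} [Field K] [Field Ω] [Algebra K Ω]

lemma rowdep (M : Matrix (Fin 2) (Fin 2) Ω) (w₀ w₁ : K) (hw : w₀ ≠ 0 ∨ w₁ ≠ 0)
    (e : ∀ j, w₀ • M 0 j + w₁ • M 1 j = 0) : ¬ LinearIndependent K M.row := by
  rw [Fintype.not_linearIndependent_iff]
  refine ⟨![w₀, w₁], ?_, ?_⟩
  · rw [Fin.sum_univ_two]
    funext j
    exact e j
  · rcases hw with h | h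
    · exact ⟨0, h⟩
    · exact ⟨1, h⟩

lemma coldep (M : Matrix (Fin 2) (Fin 2) Ω) (w₀ w₁ : K) (hw : w₀ ≠ 0 ∨ w₁ ≠ 0)
    (e : ∀ i, w₀ • M i 0 + w₁ • M i 1 = 0) : ¬ LinearIndependent K M.col := by
  rw [Fintype.not_linearIndependent_iff]
  refine ⟨![w₀, w₁], ?_, ?_⟩
  · rw [Fin.sum_univ_two]
    funext j
    exact e j
  · rcases hw with h | h
    · exact ⟨0, h⟩
    · exact ⟨1, h⟩

/-- the case of a space of dimension one -/
lemma one_dim (M : Matrix (Fin 2) (Fin 2) Ω) (m : Fin 2 → Fin 2 → K) (y : Ω)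
    (hM : ∀ i j, M i j = m i j • y) (hdet : M.det = 0) : ¬ LinearIndependent K M.row := by
  by_cases hy : y = 0
  · refine rowdep M 1 0 (Or.inl one_ne_zero) fun j => ?_
    rw [hM, hM, hy]
    simp
  · have hm : m 0 0 * m 1 1 - m 0 1 * m 1 0 = 0 := by
      rw [Matrix.det_fin_two, hM, hM, hM, hM] at hdet
      simp only [Algebra.smul_def] at hdet
      have h1 : y ^ 2 * algebraMap K Ω (m 0 0 * m 1 1 - m 0 1 * m 1 0) = 0 := by
        rw [map_sub, map_mul, map_mul]
        linear_combination hdet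
      have h2 := (mul_eq_zero.1 h1).resolve_left (pow_ne_zero 2 hy)
      exact (map_eq_zero (algebraMap K Ω)).1 h2
    obtain ⟨w₀, w₁, hw, e1, e2⟩ := sing hm
    refine rowdep M w₀ w₁ hw fun j => ?_
    rw [hM, hM, smul_smul, smul_smul, ← add_smul]
    fin_cases j
    · change (w₀ * m 0 0 + w₁ * m 1 0) • y = 0
      rw [e1, zero_smul]
    · change (w₀ * m 0 1 + w₁ * m 1 1) • y = 0
      rw [e2, zero_smul]

end dep

theorem two : S_TWO := by
  intro K Ω _ _ _ _ y₁ y₂ M hM hdet
  have hM' : ∀ i j, ∃ a b : K, a • y₁ + b • y₂ = M i j := fun i j =>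
    Submodule.mem_span_pair.1 (hM i j)
  choose a b hab using hM'
  by_cases hy : y₂ = 0
  · left
    refine one_dim M a y₁ (fun i j => ?_) hdet
    rw [← hab, hy, smul_zero, add_zero]
  · by_cases hz : y₁ / y₂ ∈ (algebraMap K Ω).range
    · obtain ⟨c, hc⟩ := hz
      have hc' : y₁ = c • y₂ := by
        rw [Algebra.smul_def, hc, div_mul_cancel₀ _ hy]
      left
      refine one_dim M (fun i j => a i j * c + b i j) y₂ (fun i j => ?_) hdet
      rw [← hab, hc', smul_smul, ← add_smul]
    · have hq : algebraMap K Ω (a 0 0 * a 1 1 - a 0 1 * a 1 0) * (y₁ / y₂) ^ 2 +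
          algebraMap K Ω (a 0 0 * b 1 1 + a 1 1 * b 0 0 - a 0 1 * b 1 0 - a 1 0 * b 0 1) *
            (y₁ / y₂) + algebraMap K Ω (b 0 0 * b 1 1 - b 0 1 * b 1 0) = 0 := by
        rw [Matrix.det_fin_two, ← hab, ← hab, ← hab, ← hab] at hdet
        simp only [Algebra.smul_def] at hdet
        simp only [map_sub, map_add, map_mul]
        field_simp
        linear_combination hdet
      obtain ⟨h1, h3, h2⟩ := quad _ hz hq
      rcases pencil h1 h2 h3 with ⟨w₀, w₁, hw, e1, e2, e3, e4⟩ | ⟨v₀, v₁, hv, e1, e2, e3, e4⟩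
      · left
        refine rowdep M w₀ w₁ hw fun j => ?_
        have e : ∀ j, w₀ * a 0 j + w₁ * a 1 j = 0 ∧ w₀ * b 0 j + w₁ * b 1 j = 0 := by
          intro j
          fin_cases j
          · exact ⟨e1, e3⟩
          · exact ⟨e2, e4⟩
        rw [← hab, ← hab]
        calc w₀ • (a 0 j • y₁ + b 0 j • y₂) + w₁ • (a 1 j • y₁ + b 1 j • y₂) =
            (w₀ * a 0 j + w₁ * a 1 j) • y₁ + (w₀ * b 0 j + w₁ * b 1 j) • y₂ := by
              simp only [smul_add, smul_smul, add_smul]
              abel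
          _ = 0 := by rw [(e j).1, (e j).2, zero_smul, zero_smul, add_zero]
      · right
        refine coldep M v₀ v₁ hv fun i => ?_
        have e : ∀ i, v₀ * a i 0 + v₁ * a i 1 = 0 ∧ v₀ * b i 0 + v₁ * b i 1 = 0 := by
          intro i
          fin_cases i
          · exact ⟨e1, e3⟩
          · exact ⟨e2, e4⟩
        rw [← hab, ← hab]
        calc v₀ • (a i 0 • y₁ + b i 0 • y₂) + v₁ • (a i 1 • y₁ + b i 1 • y₂) =
            (v₀ * a i 0 + v₁ * a i 1) • y₁ + (v₀ * b i 0 + v₁ * b i 1) • y₂ := by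
              simp only [smul_add, smul_smul, add_smul]
              abel
          _ = 0 := by rw [(e i).1, (e i).2, zero_smul, zero_smul, add_zero]

end Pool.Agent.P8H26.SF
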